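import Pool.Agent.TH270.MS.BM

/-!
# Sums with logarithmic weights
-/

set_option autoImplicit false

open MeasureTheory Filter Topology Set
open Pool.Agent.TH270.MS (LI lmean lmean_zero one_le_log BM int_inv)

namespace Pool.Agent.V11210.NG

/-- partial sums -/
noncomputable def ps (c : ℕ → ℝ) (x : ℝ) : ℝ := ∑ k ∈ Finset.Icc 0 ⌊x⌋₊, c k

/-- partial sums with logarithmic weights -/
noncomputable def pw (c : ℕ → ℝ) (x : ℝ) : ℝ := ps (fun k => Real.log k * c k) x

variable {c : ℕ → ℝ}

lemma e_two : (2 : ℝ) ≤ Real.exp 1 := by linarith [Real.add_one_le_exp 1]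

lemma ps_int (c : ℕ → ℝ) {g : ℝ → ℝ} {a b : ℝ} (ha : 0 ≤ a) (hab : a ≤ b) (hg : ContinuousOn g (Icc a b)) :
    IntervalIntegrable (fun t => g t * ps c t) volume a b := by
  rw [intervalIntegrable_iff_integrableOn_Ioc_of_le hab]
  exact (integrableOn_mul_sum_Icc c ha hg.integrableOn_Icc).mono_set Ioc_subset_Icc_self

lemma ps_li (c : ℕ → ℝ) : LI (ps c) := by
  intro Y hY
  have h := ps_int c (g := fun _ => 1) (Real.exp_pos 1).le hY continuousOn_const
  simpa using h

lemma cont_inv {a b : ℝ} (ha : 0 < a) : ContinuousOn (fun t : ℝ => t⁻¹) (Icc a b) :=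
  continuousOn_inv₀.mono fun t ht => (lt_of_lt_of_le ha ht.1).ne'

lemma cont_w {a b : ℝ} (ha : 1 < a) : ContinuousOn (fun t : ℝ => (t * Real.log t ^ 2)⁻¹) (Icc a b) := by
  refine ContinuousOn.inv₀ (continuousOn_id.mul ((Real.continuousOn_log.mono fun t ht => ?_).pow 2))
    fun t ht => ?_
  · have : (0 : ℝ) < t := by linarith [ht.1]
    exact this.ne'
  · have h1 : 1 < t := lt_of_lt_of_le ha ht.1
    have h2 := Real.log_pos h1
    positivity

/-- the first partial summation -/
theorem abel1 (h0 : c 0 = 0) (h1 : c 1 = 0) : ∃ K : ℝ, ∀ x : ℝ, Real.exp 1 ≤ x →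
    pw c x = Real.log x * ps c x - (K + ∫ t in Real.exp 1..x, ps c t / t) := by
  refine ⟨∫ t in (2 : ℝ)..Real.exp 1, t⁻¹ * ps c t, fun x hx => ?_⟩
  have hx2 : 2 ≤ x := e_two.trans hx
  have hd : ∀ t ∈ Icc 2 x, DifferentiableAt ℝ Real.log t := fun t ht =>
    Real.differentiableAt_log (by linarith [ht.1])
  have hi : IntegrableOn (deriv Real.log) (Icc 2 x) := by
    rw [Real.deriv_log']
    exact (cont_inv two_pos).integrableOn_Icc
  have h2 := sum_mul_eq_sub_integral_mul₁ c h0 h1 x hd hi
  have h3 : ∫ t in Ioc 2 x, deriv Real.log t * ∑ k ∈ Finset.Icc 0 ⌊t⌋₊, c k =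
      (∫ t in (2 : ℝ)..Real.exp 1, t⁻¹ * ps c t) + ∫ t in Real.exp 1..x, ps c t / t := by
    have e1 : ∫ t in Real.exp 1..x, ps c t / t = ∫ t in Real.exp 1..x, t⁻¹ * ps c t :=
      intervalIntegral.integral_congr fun t _ => by
        show ps c t / t = t⁻¹ * ps c t
        ring
    rw [e1, intervalIntegral.integral_add_adjacent_intervals
      (ps_int c (by norm_num) e_two (cont_inv two_pos))
      (ps_int c (Real.exp_pos 1).le hx (cont_inv (Real.exp_pos 1))),
      intervalIntegral.integral_of_le hx2, Real.deriv_log']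
    rfl
  rw [← h3]
  exact h2

/-- the second partial summation -/
theorem abel2 (h0 : c 0 = 0) (h1 : c 1 = 0) : ∃ K : ℝ, ∀ x : ℝ, Real.exp 1 ≤ x →
    ps c x = pw c x / Real.log x + (K + ∫ t in Real.exp 1..x, pw c t / (t * Real.log t ^ 2)) := by
  refine ⟨∫ t in (2 : ℝ)..Real.exp 1, (t * Real.log t ^ 2)⁻¹ * pw c t, fun x hx => ?_⟩
  have hx2 : 2 ≤ x := e_two.trans hx
  have hder : ∀ t : ℝ, 1 < t → HasDerivAt (fun t => (Real.log t)⁻¹) (-(t * Real.log t ^ 2)⁻¹) t := by
    intro t ht
    have hl := Real.log_pos ht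
    have h5 := (Real.hasDerivAt_log (by linarith : t ≠ 0)).inv hl.ne'
    have h6 : -(t * Real.log t ^ 2)⁻¹ = -t⁻¹ / Real.log t ^ 2 := by
      rw [mul_inv]
      ring
    rw [h6]
    exact h5
  have hd : ∀ t ∈ Icc 2 x, DifferentiableAt ℝ (fun t => (Real.log t)⁻¹) t := fun t ht =>
    (hder t (by linarith [ht.1])).differentiableAt
  have hi : IntegrableOn (deriv fun t => (Real.log t)⁻¹) (Icc 2 x) := by
    have h5 : IntegrableOn (fun t : ℝ => -(t * Real.log t ^ 2)⁻¹) (Icc 2 x) :=
      (cont_w (by norm_num)).integrableOn_Icc.neg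
    refine h5.congr_fun (fun t ht => ?_) measurableSet_Icc
    exact (hder t (by linarith [ht.1])).deriv.symm
  have h2 := sum_mul_eq_sub_integral_mul₁ (fun k => Real.log k * c k) (by simp [h0]) (by simp) x hd hi
  have h3 : ∫ t in Ioc 2 x, deriv (fun t => (Real.log t)⁻¹) t *
      ∑ k ∈ Finset.Icc 0 ⌊t⌋₊, Real.log k * c k =
      -((∫ t in (2 : ℝ)..Real.exp 1, (t * Real.log t ^ 2)⁻¹ * pw c t) +
        ∫ t in Real.exp 1..x, pw c t / (t * Real.log t ^ 2)) := by
    have e1 : ∫ t in Real.exp 1..x, pw c t / (t * Real.log t ^ 2) =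
        ∫ t in Real.exp 1..x, (t * Real.log t ^ 2)⁻¹ * pw c t :=
      intervalIntegral.integral_congr fun t _ => by
        show pw c t / (t * Real.log t ^ 2) = (t * Real.log t ^ 2)⁻¹ * pw c t
        ring
    have e2 : (∫ t in (2 : ℝ)..Real.exp 1, (t * Real.log t ^ 2)⁻¹ * pw c t) +
        ∫ t in Real.exp 1..x, (t * Real.log t ^ 2)⁻¹ * pw c t =
        ∫ t in (2 : ℝ)..x, (t * Real.log t ^ 2)⁻¹ * pw c t :=
      intervalIntegral.integral_add_adjacent_intervals
        (ps_int (fun k => Real.log k * c k) (by norm_num) e_two (cont_w (by norm_num)))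
        (ps_int (fun k => Real.log k * c k) (Real.exp_pos 1).le hx (cont_w (by linarith [e_two])))
    rw [e1, e2, intervalIntegral.integral_of_le hx2, ← integral_neg]
    refine setIntegral_congr_fun measurableSet_Ioc fun t ht => ?_
    show deriv (fun t => (Real.log t)⁻¹) t * _ = -((t * Real.log t ^ 2)⁻¹ * pw c t)
    rw [(hder t (by linarith [ht.1])).deriv, neg_mul]
    rfl
  rw [h3, sub_neg_eq_add] at h2
  have h4 : ∑ k ∈ Finset.Icc 0 ⌊x⌋₊, (Real.log k)⁻¹ * (Real.log k * c k) = ps c x := by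
    refine Finset.sum_congr rfl fun k _ => ?_
    rcases lt_or_ge k 2 with hk | hk
    · interval_cases k
      · simp [h0]
      · simp [h1]
    · have : 0 < Real.log k := Real.log_pos (by exact_mod_cast (by omega : 1 < k))
      field_simp
  rw [← h4]
  refine h2.trans ?_
  congr 1
  show (Real.log x)⁻¹ * pw c x = pw c x / Real.log x
  ring

/-- `∫_e^x log log t dt / t` -/
lemma int_loglog {x : ℝ} (hx : Real.exp 1 ≤ x) : ∫ t in Real.exp 1..x, Real.log (Real.log t) / t =
    Real.log x * Real.log (Real.log x) - Real.log x + 1 := by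
  have hder : ∀ t ∈ uIcc (Real.exp 1) x, HasDerivAt (fun t => Real.log t * Real.log (Real.log t) - Real.log t)
      (Real.log (Real.log t) / t) t := by
    intro t ht
    rw [uIcc_of_le hx] at ht
    have ht0 : 0 < t := (Real.exp_pos 1).trans_le ht.1
    have hl := one_le_log ht.1
    have h1 := Real.hasDerivAt_log ht0.ne'
    have h2 := h1.log (by linarith : Real.log t ≠ 0)
    have h3 := (h1.mul h2).sub h1
    have hl0 : Real.log t ≠ 0 := by linarith
    have h6 : Real.log (Real.log t) / t =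
        t⁻¹ * Real.log (Real.log t) + Real.log t * (t⁻¹ / Real.log t) - t⁻¹ := by
      field_simp
      ring
    rw [h6]
    exact h3
  rw [intervalIntegral.integral_eq_sub_of_hasDerivAt hder, Real.log_exp, Real.log_one]
  · ring
  · refine ContinuousOn.intervalIntegrable ?_
    rw [uIcc_of_le hx]
    refine ContinuousOn.div ?_ continuousOn_id fun t ht => ((Real.exp_pos 1).trans_le ht.1).ne'
    refine ContinuousOn.log (Real.continuousOn_log.mono fun t ht => ?_) fun t ht => ?_
    · exact ((Real.exp_pos 1).trans_le ht.1).ne'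
    · linarith [one_le_log ht.1]

lemma tendsto_lmean {f : ℝ → ℝ} (h : Tendsto (lmean fun y => |f y|) atTop (𝓝 0)) :
    Tendsto (lmean f) atTop (𝓝 0) := by
  refine squeeze_zero_norm' ?_ h
  filter_upwards [eventually_ge_atTop (Real.exp 1)] with Y hY
  have hlog := one_le_log hY
  unfold lmean
  rw [norm_div, Real.norm_of_nonneg (by linarith : 0 ≤ Real.log Y)]
  refine div_le_div_of_nonneg_right ?_ (by linarith)
  refine (intervalIntegral.norm_integral_le_integral_norm hY).trans (le_of_eq ?_)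
  refine intervalIntegral.integral_congr fun y hy => ?_
  rw [uIcc_of_le hY] at hy
  have hy0 : 0 < y := (Real.exp_pos 1).trans_le hy.1
  show ‖f y / y‖ = |f y| / y
  rw [norm_div, Real.norm_eq_abs, Real.norm_of_nonneg hy0.le]

/-- `a / log x → 0` -/
lemma div_log (a : ℝ) : Tendsto (fun x : ℝ => a / Real.log x) atTop (𝓝 0) :=
  tendsto_const_nhds.div_atTop Real.tendsto_log_atTop

/-- if the partial sums converge, those with logarithmic weights are `o(log x)` -/
theorem pw_small (h0 : c 0 = 0) (h1 : c 1 = 0) {C : ℝ} (h : Tendsto (ps c) atTop (𝓝 C)) :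
    Tendsto (fun x => pw c x / Real.log x) atTop (𝓝 0) := by
  obtain ⟨K, hK⟩ := abel1 h0 h1
  have h2 : Tendsto (fun x => ps c x - C) atTop (𝓝 0) := by
    have := h.sub_const C
    rwa [sub_self] at this
  have hli : LI fun x => ps c x - C := fun Y hY => (ps_li c Y hY).sub (LI.const C Y hY)
  have h3 := tendsto_lmean (lmean_zero hli h2)
  have h4 := ((h2.sub h3).add (div_log (C - K)))
  rw [sub_zero, add_zero] at h4
  refine h4.congr' ?_
  filter_upwards [eventually_ge_atTop (Real.exp 1)] with x hx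
  have hlog := one_le_log hx
  rw [hK x hx]
  have e1 : ∫ t in Real.exp 1..x, ps c t / t = (∫ t in Real.exp 1..x, (ps c t - C) / t) +
      C * (Real.log x - 1) := by
    rw [← int_inv hx, ← intervalIntegral.integral_const_mul, ← intervalIntegral.integral_add]
    · refine intervalIntegral.integral_congr fun t _ => ?_
      show ps c t / t = (ps c t - C) / t + C * (1 / t)
      ring
    · exact hli.div x hx
    · exact ((LI.const 1).div x hx).const_mul C
  rw [e1]
  unfold lmean
  field_simp
  ring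

end Pool.Agent.V11210.NG
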