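import Pool.Agent.V11210.NG.Main

/-!
# Nagao sums in logarithmic mean: the equivalence
-/

set_option autoImplicit false

open MeasureTheory Filter Topology Set Classical
open Pool.Agent.W263.BSD (GoodPrime pointCount bsdProduct bsdStar stp good_of_large IsLSeries rsSum LInt)
open Pool.Agent.TH270.MS
open Pool.Agent.TH270.MS.EQ
open Pool.Agent.TH942.ES

namespace Pool.Agent.V11210.NG

variable {a b : ℤ} {F : ℂ → ℂ}

lemma ps_bdd (c : ℕ → ℝ) (Y : ℝ) : ∃ M : ℝ, ∀ x : ℝ, x ≤ Y → |ps c x| ≤ M := by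
  refine ⟨∑ k ∈ Finset.Icc 0 ⌊Y⌋₊, |c k|, fun x hx => ?_⟩
  unfold ps
  refine (Finset.abs_sum_le_sum_abs _ _).trans ?_
  refine Finset.sum_le_sum_of_subset_of_nonneg ?_ fun _ _ _ => abs_nonneg _
  exact Finset.Icc_subset_Icc le_rfl (Nat.floor_le_floor hx)

lemma pw_li (c : ℕ → ℝ) : LI fun t => pw c t / Real.log t := by
  intro Y hY
  have h3 : IntervalIntegrable (fun t => (Real.log t)⁻¹ * pw c t) volume (Real.exp 1) Y :=
    ps_int (fun k => Real.log k * c k) (Real.exp_pos 1).le hY (by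
      refine ContinuousOn.inv₀ (Real.continuousOn_log.mono fun t ht => ?_) fun t ht => ?_
      · exact ((Real.exp_pos 1).trans_le ht.1).ne'
      · linarith [one_le_log ht.1])
  refine h3.congr (fun t _ => ?_)
  show (Real.log t)⁻¹ * pw c t = pw c t / Real.log t
  ring

lemma ps_meas (c : ℕ → ℝ) : Measurable (ps c) := by
  have h1 : ps c = (fun n : ℕ => ∑ m ∈ Finset.Icc 0 n, c m) ∘ fun u : ℝ => ⌊u⌋₊ := rfl
  rw [h1]
  exact measurable_from_top.comp Nat.measurable_floor

lemma pw_bm (c : ℕ → ℝ) : BM fun t => pw c t / Real.log t := by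
  refine ⟨((ps_meas _).div Real.measurable_log).aestronglyMeasurable, fun Y => ?_⟩
  obtain ⟨M, hM⟩ := ps_bdd (fun k => Real.log k * c k) Y
  refine ⟨M, fun y h1 h2 => ?_⟩
  have hl := one_le_log h1
  have h3 : |pw c y| ≤ M := hM y h2
  rw [abs_div, abs_of_pos (by linarith : 0 < Real.log y), div_le_iff₀ (by linarith)]
  have := (abs_nonneg _).trans h3
  nlinarith

/-- the asymptotic expansion in the mean square sense -/
theorem expansion (hΔ : 4 * a ^ 3 + 27 * b ^ 2 ≠ 0) (hF : IsLSeries a b F) (hrs : Tendsto (rsSum a b) atTop (𝓝 0))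
    {η C₀ : ℝ} {κ : ℕ} (hη : 0 < η) (hg : ∀ s : ℂ, 1 - η < s.re → ‖F s‖ ≤ C₀ * (1 + ‖s‖) ^ κ)
    {m : ℕ} (hm : analyticOrderAt F 1 = m) (hz : ∀ s : ℂ, 1 < s.re → F s ≠ 0) :
    ∃ (E : ℝ → ℝ) (q : ℝ), Measurable E ∧ BM E ∧ IntegrableOn (fun y => E y ^ 2 / y) (Ioi (Real.exp 1)) ∧
      Tendsto (fun x => ps (bet a b) x - m * Real.log (Real.log x) - E x) atTop (𝓝 q) := by
  have H := curve_mc hF hη hg
  have hz' : ∀ s : ℂ, 0 < s.re → F (1 + s) ≠ 0 := fun s hs => hz _ (by simpa using hs)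
  have t : ((∀ s : ℂ, 0 < s.re → F (1 + s) ≠ 0) ∧ ∃ m' : ℕ, (m : ℝ) = m' ∧
      meromorphicOrderAt (fun s => F (1 + s)) 0 = (m' : ℤ)) ↔
    ∃ A : ℝ, 0 < A ∧ IntegrableOn (fun Y : ℝ => DvR (nQ a b) (alQ a b) (m : ℝ) A Y ^ 2 / Y) (Ioi (Real.exp 1)) :=
    (H.tfae_order_real (m : ℝ)).out 0 1
  obtain ⟨A, hA, hI⟩ := t.1 ⟨hz', m, rfl, (mero_iff hF).2 hm⟩
  obtain ⟨e, g, p, he, Q⟩ := H.cn
  set E : ℝ → ℝ := fun x => Sh (lamS (nQ a b) e) (Pool.Agent.TH270.RS.cS' (nQ a b) (alQ a b) e) (Real.log x) -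
    m * (Real.eulerMascheroniConstant + Real.log (Real.log x)) + Real.log A with hE
  have hEm : Measurable E := by
    refine (((sh_meas Q.D).comp Real.measurable_log).sub ?_).add_const _
    exact (measurable_const.add (Real.measurable_log.comp Real.measurable_log)).const_mul _
  have hEeq : ∀ x : ℝ, 0 < x → E x = -DvR (nQ a b) (alQ a b) (m : ℝ) A x := by
    intro x hx
    rw [hE]
    simp only
    rw [sh_eq H.E he, Real.exp_log hx]
    unfold DvR
    ring
  have hEx : ∀ x : ℝ, 0 < x → E x = -Pl (nQ a b) (alQ a b) x -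
      m * (Real.eulerMascheroniConstant + Real.log (Real.log x)) + Real.log A := by
    intro x hx
    rw [hEeq x hx]
    unfold DvR
    ring
  have hEbm : BM E := by
    have h1 : BM fun x => -Pl (nQ a b) (alQ a b) x -
      m * (Real.eulerMascheroniConstant + Real.log (Real.log x)) + Real.log A :=
      (((bm_pl H).neg).sub ((BM.const (m : ℝ)).mul ((BM.const _).add BM.loglog))).add (BM.const _)
    exact BM.congr h1 fun x hx => (hEx x ((Real.exp_pos 1).trans_le hx)).symm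
  have hE2 : IntegrableOn (fun y => E y ^ 2 / y) (Ioi (Real.exp 1)) := by
    refine IntegrableOn.congr_fun hI (fun y hy => ?_) measurableSet_Ioi
    show DvR (nQ a b) (alQ a b) (m : ℝ) A y ^ 2 / y = E y ^ 2 / y
    rw [hEeq y ((Real.exp_pos 1).trans hy), neg_sq]
  obtain ⟨K, hK⟩ := star_close a b
  have l1 := corr_lim hΔ hrs
  have l2 : Tendsto (fun x => Real.log (bsdStar a b x) + Pl (nQ a b) (alQ a b) x) atTop (𝓝 0) := by
    have h1 : Tendsto (fun x : ℝ => K * x ^ (-(1 / 12 : ℝ))) atTop (𝓝 (K * 0)) :=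
      (tendsto_rpow_neg_atTop (by norm_num)).const_mul K
    rw [mul_zero] at h1
    refine squeeze_zero_norm' ?_ h1
    filter_upwards [eventually_ge_atTop (Real.exp 1)] with x hx
    exact hK x hx
  have l3 := (l2.sub l1).add_const (m * Real.eulerMascheroniConstant - Real.log A)
  refine ⟨E, _, hEm, hEbm, hE2, l3.congr' ?_⟩
  filter_upwards [eventually_ge_atTop (Real.exp 1)] with x hx
  rw [hEx x ((Real.exp_pos 1).trans_le hx), ← log_prod_eq]
  ring

/-- finite logarithmic measure of the set where a function is large -/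
lemma fin_meas {R E : ℝ → ℝ} (hE : Measurable E) (hE2 : IntegrableOn (fun y => E y ^ 2 / y) (Ioi (Real.exp 1)))
    (h : Tendsto (fun x => R x + E x) atTop (𝓝 0)) {ε : ℝ} (hε : 0 < ε) :
    IntegrableOn (fun x : ℝ => 1 / x) {x : ℝ | Real.exp 1 ≤ x ∧ ε ≤ |R x|} := by
  obtain ⟨X₀, hX₀⟩ := (Metric.tendsto_atTop.1 h) (ε / 2) (by positivity)
  set X₁ := max X₀ (Real.exp 1) with hX₁
  set T : Set ℝ := {x : ℝ | ε / 2 ≤ |E x|} ∩ Ioi (Real.exp 1) with hT
  have hTm : MeasurableSet T := (measurableSet_le measurable_const hE.abs).inter measurableSet_Ioi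
  have h1 : IntegrableOn (fun x : ℝ => 1 / x) (Icc (Real.exp 1) X₁) := by
    refine (ContinuousOn.div continuousOn_const continuousOn_id fun x hx => ?_).integrableOn_Icc
    exact ((Real.exp_pos 1).trans_le hx.1).ne'
  have h2 : IntegrableOn (fun x : ℝ => 1 / x) T := by
    have h3 : IntegrableOn (fun y => 4 / ε ^ 2 * (E y ^ 2 / y)) T :=
      (hE2.mono_set inter_subset_right).const_mul _
    refine Integrable.mono' h3 ?_ ?_
    · exact (measurable_const.div measurable_id).aestronglyMeasurable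
    · filter_upwards [ae_restrict_mem hTm] with x hx
      have hx0 : 0 < x := (Real.exp_pos 1).trans hx.2
      have h4 : ε / 2 ≤ |E x| := hx.1
      have h5 : (ε / 2) ^ 2 ≤ E x ^ 2 := by
        rw [← sq_abs (E x)]
        exact pow_le_pow_left₀ (by positivity) h4 2
      rw [Real.norm_of_nonneg (by positivity)]
      have h6 : 1 ≤ 4 / ε ^ 2 * E x ^ 2 := by
        rw [div_mul_eq_mul_div, le_div_iff₀ (by positivity)]
        nlinarith
      calc 1 / x ≤ (4 / ε ^ 2 * E x ^ 2) / x := by gcongr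
        _ = _ := by ring
  refine (h1.union h2).mono_set fun x hx => ?_
  rcases le_or_gt x X₁ with h3 | h3
  · exact Or.inl ⟨hx.1, h3⟩
  · right
    refine ⟨?_, (le_max_right _ _).trans_lt h3⟩
    have h4 := hX₀ x ((le_max_left _ _).trans h3.le)
    rw [Real.dist_eq, sub_zero] at h4
    have h5 : |R x| ≤ |R x + E x| + |E x| := by
      have := abs_sub (R x + E x) (E x)
      rwa [add_sub_cancel_right] at this
    show ε / 2 ≤ |E x|
    linarith [hx.2]

end Pool.Agent.V11210.NG
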