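import Pool.Agent.V11210.NG.Rel
import Pool.Agent.TH270.MS.GrowthF

/-!
# Nagao sums in logarithmic mean
-/

set_option autoImplicit false

open MeasureTheory Filter Topology Set Classical
open Pool.Agent.W263.BSD (GoodPrime pointCount bsdProduct bsdStar stp good_of_large IsLSeries rsSum LInt)
open Pool.Agent.TH270.MS
open Pool.Agent.TH270.MS.EQ
open Pool.Agent.TH942.ES

namespace Pool.Agent.V11210.NG

variable {a b : ℤ} {F : ℂ → ℂ}

/-- means of square integrable functions -/
lemma sq_small {E : ℝ → ℝ} (hE : BM E) (h : IntegrableOn (fun y => E y ^ 2 / y) (Ioi (Real.exp 1))) :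
    Tendsto (lmean fun y => |E y|) atTop (𝓝 0) := by
  have h0 : Tendsto (fun y => E y - E y) atTop (𝓝 0) := by simp
  have h1 := sq_lmean (f := E) (g := E) hE.sq.li h (by simpa using LI.const 0) h0
  exact lmean_of_sq hE.li hE.sq.li h1

/-- **From the deviation of the product to the Nagao sums.** -/
theorem fwd_core (m : ℝ) {E : ℝ → ℝ} (hE : BM E)
    (hE2 : IntegrableOn (fun y => E y ^ 2 / y) (Ioi (Real.exp 1))) {q : ℝ}
    (h : Tendsto (fun x => ps (bet a b) x - m * Real.log (Real.log x) - E x) atTop (𝓝 q)) :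
    Tendsto (fun x => pw (bet a b) x / Real.log x - m - E x) atTop (𝓝 0) := by
  obtain ⟨K, hK⟩ := abel1 (c := bet a b) (by unfold bet; rw [if_neg not_good_zero])
    (by unfold bet; rw [if_neg not_good_one])
  set δ : ℝ → ℝ := fun x => ps (bet a b) x - m * Real.log (Real.log x) - E x - q with hδ
  have hδ0 : Tendsto δ atTop (𝓝 0) := by
    have := h.sub_const q
    rwa [sub_self] at this
  have hll : LI fun y => m * Real.log (Real.log y) := ((BM.const m).mul BM.loglog).li
  have hδli : LI δ := fun Y hY =>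
    ((((ps_li (bet a b) Y hY).sub (hll Y hY)).sub (hE.li Y hY)).sub (LI.const q Y hY))
  have h1 : Tendsto (lmean E) atTop (𝓝 0) := tendsto_lmean (sq_small hE hE2)
  have h2 : Tendsto (lmean δ) atTop (𝓝 0) := tendsto_lmean (lmean_zero hδli hδ0)
  have h3 : Tendsto (fun x => δ x - lmean E x - lmean δ x + (q - K - m) / Real.log x) atTop (𝓝 (0 - 0 - 0 + 0)) :=
    ((hδ0.sub h1).sub h2).add (div_log _)
  rw [sub_zero, sub_zero, add_zero] at h3
  refine h3.congr' ?_
  filter_upwards [eventually_ge_atTop (Real.exp 1)] with x hx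
  have hl := one_le_log hx
  have hl0 : Real.log x ≠ 0 := by linarith
  have e1 : ∫ t in Real.exp 1..x, ps (bet a b) t / t =
      m * (∫ t in Real.exp 1..x, Real.log (Real.log t) / t) + (∫ t in Real.exp 1..x, E t / t) +
        (∫ t in Real.exp 1..x, δ t / t) + q * ∫ t in Real.exp 1..x, (1 : ℝ) / t := by
    rw [← intervalIntegral.integral_const_mul, ← intervalIntegral.integral_const_mul,
      ← intervalIntegral.integral_add ((BM.loglog.li.div x hx).const_mul m) (hE.li.div x hx),
      ← intervalIntegral.integral_add (((BM.loglog.li.div x hx).const_mul m).add (hE.li.div x hx)) (hδli.div x hx),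
      ← intervalIntegral.integral_add ((((BM.loglog.li.div x hx).const_mul m).add (hE.li.div x hx)).add
        (hδli.div x hx)) (((LI.const 1).div x hx).const_mul q)]
    refine intervalIntegral.integral_congr fun t _ => ?_
    show ps (bet a b) t / t = m * (Real.log (Real.log t) / t) + E t / t + δ t / t + q * (1 / t)
    rw [hδ]
    ring
  rw [hK x hx, e1, int_loglog hx, int_inv hx]
  have e2 : ps (bet a b) x = δ x + m * Real.log (Real.log x) + E x + q := by
    rw [hδ]
    ring
  rw [e2]
  unfold lmean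
  field_simp
  ring

/-- **From bounded means of the Nagao sums to bounds for the product.** -/
theorem bwd_core {B : ℝ} (h : ∀ᶠ X : ℝ in atTop,
    ∫ x in Real.exp 1..X, |pw (bet a b) x / Real.log x| / x ≤ B * Real.log X) :
    ∃ B' K : ℝ, 0 ≤ B' ∧ (∀ x : ℝ, Real.exp 1 ≤ x → |ps (bet a b) x| ≤
      |pw (bet a b) x / Real.log x| + (B' * Real.log x + K)) ∧
      ∀ x : ℝ, Real.exp 1 ≤ x → ∫ t in Real.exp 1..x, |pw (bet a b) t / Real.log t| / t ≤ B' * Real.log x := by
  obtain ⟨K, hK⟩ := abel2 (c := bet a b) (by unfold bet; rw [if_neg not_good_zero])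
    (by unfold bet; rw [if_neg not_good_one])
  obtain ⟨X₀, hX₀⟩ := h.exists_forall_of_atTop
  have hint : ∀ x : ℝ, Real.exp 1 ≤ x →
      IntervalIntegrable (fun t => |pw (bet a b) t / Real.log t| / t) volume (Real.exp 1) x := by
    intro x hx
    have h1 : IntervalIntegrable (fun t => (Real.log t)⁻¹ * pw (bet a b) t) volume (Real.exp 1) x :=
      ps_int (fun k => Real.log k * bet a b k) (Real.exp_pos 1).le hx (by
        refine ContinuousOn.inv₀ (Real.continuousOn_log.mono fun t ht => ?_) fun t ht => ?_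
        · exact ((Real.exp_pos 1).trans_le ht.1).ne'
        · linarith [one_le_log ht.1])
    have h2 : LI fun t => pw (bet a b) t / Real.log t := by
      intro Y hY
      have h3 : IntervalIntegrable (fun t => (Real.log t)⁻¹ * pw (bet a b) t) volume (Real.exp 1) Y :=
        ps_int (fun k => Real.log k * bet a b k) (Real.exp_pos 1).le hY (by
          refine ContinuousOn.inv₀ (Real.continuousOn_log.mono fun t ht => ?_) fun t ht => ?_
          · exact ((Real.exp_pos 1).trans_le ht.1).ne'
          · linarith [one_le_log ht.1])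
      refine h3.congr (fun t _ => ?_)
      show (Real.log t)⁻¹ * pw (bet a b) t = pw (bet a b) t / Real.log t
      ring
    exact h2.abs.div x hx
  set X₁ : ℝ := max X₀ (Real.exp 1) with hX₁
  set I : ℝ := ∫ t in Real.exp 1..X₁, |pw (bet a b) t / Real.log t| / t with hI
  have hI0 : 0 ≤ I := by
    refine intervalIntegral.integral_nonneg (le_max_right _ _) fun t ht => ?_
    have : 0 < t := (Real.exp_pos 1).trans_le ht.1
    positivity
  have hmean : ∀ x : ℝ, Real.exp 1 ≤ x →
      ∫ t in Real.exp 1..x, |pw (bet a b) t / Real.log t| / t ≤ (|B| + I) * Real.log x := by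
    intro x hx
    have hl := one_le_log hx
    rcases le_total x X₁ with h1 | h1
    · have h2 : ∫ t in Real.exp 1..x, |pw (bet a b) t / Real.log t| / t ≤ I := by
        refine intervalIntegral.integral_mono_interval le_rfl hx h1 ?_ (hint X₁ (le_max_right _ _))
        filter_upwards [ae_restrict_mem measurableSet_Ioc] with t ht
        have : 0 < t := (Real.exp_pos 1).trans ht.1
        show 0 ≤ |pw (bet a b) t / Real.log t| / t
        positivity
      nlinarith [abs_nonneg B]
    · have h2 := hX₀ x ((le_max_left _ _).trans h1)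
      have h3 := le_abs_self B
      nlinarith
  refine ⟨|B| + I, |K|, by positivity, fun x hx => ?_, hmean⟩
  have hl := one_le_log hx
  rw [hK x hx]
  refine (abs_add_le _ _).trans (add_le_add le_rfl ?_)
  refine (abs_add_le _ _).trans ?_
  have h1 : |∫ t in Real.exp 1..x, pw (bet a b) t / (t * Real.log t ^ 2)| ≤
      ∫ t in Real.exp 1..x, |pw (bet a b) t / Real.log t| / t := by
    rw [← Real.norm_eq_abs]
    refine intervalIntegral.norm_integral_le_of_norm_le hx (ae_of_all _ fun t ht => ?_) (hint x hx)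
    have ht0 : 0 < t := (Real.exp_pos 1).trans ht.1
    have hlt := one_le_log ht.1.le
    rw [norm_div, Real.norm_eq_abs, Real.norm_of_nonneg (by positivity : 0 ≤ t * Real.log t ^ 2), abs_div,
      abs_of_pos (by linarith : 0 < Real.log t), div_div]
    apply div_le_div_of_nonneg_left (abs_nonneg _) (by positivity)
    nlinarith [mul_nonneg (mul_nonneg ht0.le (by linarith : 0 ≤ Real.log t)) (by linarith : 0 ≤ Real.log t - 1)]
  have h2 := hmean x hx
  linarith

/-- the zeros, from bounded means -/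
theorem no_zeros (hΔ : 4 * a ^ 3 + 27 * b ^ 2 ≠ 0) (hF : IsLSeries a b F) (hrs : Tendsto (rsSum a b) atTop (𝓝 0))
    {η C₀ : ℝ} {κ : ℕ} (hη : 0 < η) (hg : ∀ s : ℂ, 1 - η < s.re → ‖F s‖ ≤ C₀ * (1 + ‖s‖) ^ κ) {B : ℝ}
    (h : ∀ᶠ X : ℝ in atTop, ∫ x in Real.exp 1..X, |pw (bet a b) x / Real.log x| / x ≤ B * Real.log X) :
    ∀ s : ℂ, 1 < s.re → F s ≠ 0 := by
  obtain ⟨B', K, hB', h1, h2⟩ := bwd_core h
  obtain ⟨M, hM⟩ := product_close hΔ hrs
  have H := curve_mc hF hη hg
  obtain ⟨e, g, p, he, Q⟩ := H.cn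
  have D := Q.D
  obtain ⟨C₁, hC₁, hb⟩ := Pool.Agent.TH270.MS.er_le D 0 0
  set f : ℝ → ℝ := Er (lamS (nQ a b) e) (Pool.Agent.TH270.RS.cS' (nQ a b) (alQ a b) e) 0 0 with hf
  have hfm : Measurable f := er_meas D 0 0
  have hfu : ∀ u : ℝ, 1 ≤ u → |f u| ≤ |pw (bet a b) (Real.exp u) / u| + (B' * u + (K + M)) := by
    intro u hu
    have hx : Real.exp 1 ≤ Real.exp u := Real.exp_le_exp.2 hu
    have h3 := h1 (Real.exp u) hx
    have h4 := hM (Real.exp u) hx
    rw [Real.log_exp] at h3
    have h5 : f u = -Pl (nQ a b) (alQ a b) (Real.exp u) := by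
      rw [hf]
      unfold Er
      rw [sh_eq H.E he]
      simp
    rw [log_prod_eq] at h4
    rw [h5]
    have e1 : -Pl (nQ a b) (alQ a b) (Real.exp u) = ps (bet a b) (Real.exp u) -
        (ps (bet a b) (Real.exp u) + Pl (nQ a b) (alQ a b) (Real.exp u)) := by ring
    rw [e1]
    refine (abs_sub _ _).trans ?_
    linarith
  set f₁ : ℝ → ℝ := fun u => max (|f u| - (B' * u + (K + M))) 0 with hf₁
  have hf₁m : Measurable f₁ := ((hfm.abs).sub (by fun_prop)).max measurable_const
  -- the truncated function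
  set K' : ℝ := |K + M| with hK'
  set f₂ : ℝ → ℝ := fun u => max (|f u| - (B' * |u| + K')) 0 with hf₂
  have hf₂m : Measurable f₂ := ((hfm.abs).sub (by fun_prop)).max measurable_const
  have hf₂b : ∀ u, |f₂ u| ≤ C₁ * Real.exp (1 * u) := by
    intro u
    have h0 : 0 ≤ C₁ * Real.exp (1 * u) := by positivity
    rw [hf₂, abs_of_nonneg (le_max_right _ _)]
    refine max_le ?_ h0
    have h3 := hb u
    have h4 : 0 ≤ B' * |u| + K' := by positivity
    show |f u| - _ ≤ _
    linarith
  have hf₂l : ∀ u : ℝ, 1 ≤ u → f₂ u ≤ |pw (bet a b) (Real.exp u) / u| := by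
    intro u hu
    rw [hf₂]
    refine max_le ?_ (abs_nonneg _)
    have h3 := hfu u hu
    have h4 := le_abs_self (K + M)
    rw [abs_of_nonneg (by linarith : (0 : ℝ) ≤ u)]
    linarith
  have hLI : LI fun t => pw (bet a b) t / Real.log t := by
    intro Y hY
    have h3 : IntervalIntegrable (fun t => (Real.log t)⁻¹ * pw (bet a b) t) volume (Real.exp 1) Y :=
      ps_int (fun k => Real.log k * bet a b k) (Real.exp_pos 1).le hY (by
        refine ContinuousOn.inv₀ (Real.continuousOn_log.mono fun t ht => ?_) fun t ht => ?_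
        · exact ((Real.exp_pos 1).trans_le ht.1).ne'
        · linarith [one_le_log ht.1])
    refine h3.congr (fun t _ => ?_)
    show (Real.log t)⁻¹ * pw (bet a b) t = pw (bet a b) t / Real.log t
    ring
  have hmean : ∀ᶠ T : ℝ in atTop, ∫ u in (1 : ℝ)..T, |f₂ u| ≤ (B' + 1) * T := by
    filter_upwards [eventually_ge_atTop 1] with T hT
    have hx : Real.exp 1 ≤ Real.exp T := Real.exp_le_exp.2 hT
    have h3 := h2 (Real.exp T) hx
    rw [Real.log_exp] at h3
    have h4 : ∫ u in (1 : ℝ)..T, |f₂ u| = ∫ y in Real.exp 1..Real.exp T, |f₂ (Real.log y)| / y :=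
      (cov_ii (fun u => |f₂ u|) hT).symm
    have h5 : ∫ y in Real.exp 1..Real.exp T, |f₂ (Real.log y)| / y ≤
        ∫ y in Real.exp 1..Real.exp T, |pw (bet a b) y / Real.log y| / y := by
      refine intervalIntegral.integral_mono_on hx ?_ (hLI.abs.div _ hx) fun y hy => ?_
      · have hbm : BM fun y => f₂ (Real.log y) := by
          refine ⟨(hf₂m.comp Real.measurable_log).aestronglyMeasurable, fun Y => ⟨C₁ * Y, fun y hy1 hy2 => ?_⟩⟩
          have h6 := hf₂b (Real.log y)
          rw [one_mul, Real.exp_log ((Real.exp_pos 1).trans_le hy1)] at h6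
          exact h6.trans (mul_le_mul_of_nonneg_left hy2 hC₁)
        exact hbm.li.abs.div _ hx
      · have hy0 : 0 < y := (Real.exp_pos 1).trans_le hy.1
        have hly := one_le_log hy.1
        refine div_le_div_of_nonneg_right ?_ hy0.le
        have h6 := hf₂l (Real.log y) hly
        rw [Real.exp_log hy0] at h6
        rw [abs_of_nonneg (le_max_right _ _ : 0 ≤ f₂ (Real.log y))]
        exact h6
    rw [h4]
    have : (B' + 1) * T = B' * T + T := by ring
    linarith
  obtain ⟨h3, -⟩ := mean_lap hf₂m hf₂b (by linarith : 0 < B' + 1) hmean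
  -- Laplace integrability
  have hint : ∀ x : ℝ, 0 < x → LInt f x := by
    intro x hx
    have i1 : LInt f₂ x := h3 x hx
    have i2 : LInt (fun u => B' * u + K') x := by
      have j1 : IntegrableOn (fun u : ℝ => u ^ ((2 : ℝ) - 1) * Real.exp (-(x * u))) (Ioi 0) := gam_int two_pos hx
      have j2 : IntegrableOn (fun u : ℝ => u ^ ((1 : ℝ) - 1) * Real.exp (-(x * u))) (Ioi 0) := gam_int one_pos hx
      have j3 : IntegrableOn (fun u : ℝ => B' * (u ^ ((2 : ℝ) - 1) * Real.exp (-(x * u))) +
          K' * (u ^ ((1 : ℝ) - 1) * Real.exp (-(x * u)))) (Ioi 0) := (j1.const_mul B').add (j2.const_mul K')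
      refine IntegrableOn.congr_fun j3 (fun u _ => ?_) measurableSet_Ioi
      show B' * (u ^ ((2 : ℝ) - 1) * Real.exp (-(x * u))) + K' * (u ^ ((1 : ℝ) - 1) * Real.exp (-(x * u))) =
        (B' * u + K') * Real.exp (-(x * u))
      have e1 : (2 : ℝ) - 1 = 1 := by norm_num
      rw [e1, Real.rpow_one, sub_self, Real.rpow_zero]
      ring
    refine Integrable.mono' (i1.add i2) ((hfm.mul (by fun_prop)).aestronglyMeasurable) ?_
    filter_upwards [ae_restrict_mem measurableSet_Ioi] with u hu
    have hu0 : (0 : ℝ) < u := hu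
    rw [norm_mul, Real.norm_eq_abs, Real.norm_of_nonneg (Real.exp_pos _).le]
    have h4 : |f u| ≤ f₂ u + (B' * u + K') := by
      have h5 : |f u| - (B' * |u| + K') ≤ f₂ u := le_max_left _ _
      rw [abs_of_pos hu0] at h5
      linarith
    exact mul_le_mul_of_nonneg_right h4 (Real.exp_pos _).le
  obtain ⟨h4, -, -⟩ := conv D (fun s hs => Q.hG s (by linarith [Q.hη])) Q.hexp Q.hg Q.hg0 Q.near hint
  intro s hs
  have := h4 (s - 1) (by simpa using hs)
  rwa [add_sub_cancel] at this

end Pool.Agent.V11210.NG
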