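import Pool.Agent.TH941.Newform

/-!
# A Tauberian theorem of Littlewood type for sums over the primes
-/

set_option autoImplicit false

open MeasureTheory Filter Topology Set
open Pool.Agent.W263.BSD (stp stp_meas stp_LInt stp_hasSum stp_abs lap LInt tauber_limit)
open Pool.Agent.TH941 (PS)

namespace Pool.Agent.V11210.NG

variable {c : ℕ → ℝ} {B : ℝ}

lemma abs_log_le {t : ℝ} (ht : 0 < t) : |Real.log t| ≤ 2 * t ^ ((3 / 2 : ℝ) - 1) + 2 * t ^ ((1 / 2 : ℝ) - 1) := by
  have h1 : ∀ s : ℝ, 0 < s → Real.log s ≤ 2 * s ^ (1 / 2 : ℝ) := by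
    intro s hs
    have h2 : 0 < s ^ (1 / 2 : ℝ) := Real.rpow_pos_of_pos hs _
    have h3 := Real.log_le_sub_one_of_pos h2
    rw [Real.log_rpow hs] at h3
    linarith
  have e1 : t ^ ((3 / 2 : ℝ) - 1) = t ^ (1 / 2 : ℝ) := by norm_num
  have e2 : t ^ ((1 / 2 : ℝ) - 1) = (t⁻¹) ^ (1 / 2 : ℝ) := by
    rw [Real.inv_rpow ht.le, ← Real.rpow_neg ht.le]
    norm_num
  rw [e1, e2]
  have h4 := h1 t ht
  have h5 := h1 t⁻¹ (inv_pos.2 ht)
  rw [Real.log_inv] at h5
  have h6 : 0 ≤ t ^ (1 / 2 : ℝ) := Real.rpow_nonneg ht.le _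
  have h7 : 0 ≤ (t⁻¹) ^ (1 / 2 : ℝ) := Real.rpow_nonneg (inv_pos.2 ht).le _
  rw [abs_le]
  constructor <;> linarith

lemma gam_int {s w : ℝ} (hs : 0 < s) (hw : 0 < w) :
    IntegrableOn (fun v : ℝ => v ^ (s - 1) * Real.exp (-(w * v))) (Ioi 0) := by
  by_contra hcon
  have h1 := Real.integral_rpow_mul_exp_neg_mul_Ioi hs hw
  rw [integral_undef hcon] at h1
  have h2 : 0 < (1 / w) ^ s * Real.Gamma s := mul_pos (Real.rpow_pos_of_pos (by positivity) _) (Real.Gamma_pos_of_pos hs)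
  linarith

lemma gam_val {s w : ℝ} (hs : 0 < s) (hw : 0 < w) :
    w * ∫ v in Ioi (0 : ℝ), (w * v) ^ (s - 1) * Real.exp (-(w * v)) = Real.Gamma s := by
  have h1 := Real.integral_rpow_mul_exp_neg_mul_Ioi hs hw
  have h2 : ∫ v in Ioi (0 : ℝ), (w * v) ^ (s - 1) * Real.exp (-(w * v)) =
      w ^ (s - 1) * ∫ v in Ioi (0 : ℝ), v ^ (s - 1) * Real.exp (-(w * v)) := by
    rw [← integral_const_mul]
    refine setIntegral_congr_fun measurableSet_Ioi fun v hv => ?_
    have hv0 : (0 : ℝ) < v := hv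
    show (w * v) ^ (s - 1) * _ = w ^ (s - 1) * (v ^ (s - 1) * _)
    rw [Real.mul_rpow hw.le hv0.le]
    ring
  rw [h2, h1, one_div, Real.inv_rpow hw.le, Real.rpow_sub_one hw.ne']
  have h3 : w ^ s ≠ 0 := (Real.rpow_pos_of_pos hw _).ne'
  field_simp

lemma gam_int' {s w : ℝ} (hs : 0 < s) (hw : 0 < w) :
    IntegrableOn (fun v : ℝ => (w * v) ^ (s - 1) * Real.exp (-(w * v))) (Ioi 0) := by
  have h1 := (gam_int hs hw).const_mul (w ^ (s - 1))
  refine IntegrableOn.congr_fun h1 (fun v hv => ?_) measurableSet_Ioi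
  have hv0 : (0 : ℝ) < v := hv
  show w ^ (s - 1) * (v ^ (s - 1) * _) = (w * v) ^ (s - 1) * _
  rw [Real.mul_rpow hw.le hv0.le]
  ring

/-- slow variation -/
lemma stp_dist (hc : PS c B) : ∃ A u1 : ℝ, 1 ≤ u1 ∧ 0 ≤ A ∧ ∀ u v : ℝ, u1 ≤ u → 0 < v →
    |stp c u - stp c v| ≤ A + B * |Real.log (v / u)| := by
  obtain ⟨u0, h2, h⟩ := hc.slow1 one_pos
  set K : ℝ := ∑' n : ℕ, |c n| * (n : ℝ) ^ (-(1 : ℝ)) with hK
  have hK0 : 0 ≤ K := tsum_nonneg fun n => by positivity
  have hb : ∀ u : ℝ, |stp c u| ≤ K * Real.exp (1 * u) := fun u =>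
    stp_abs hc.zero (hc.summable one_pos) zero_le_one u
  set K' : ℝ := K * Real.exp u0 with hK'
  have hK'0 : 0 ≤ K' := by positivity
  have hb' : ∀ u : ℝ, u ≤ u0 → |stp c u| ≤ K' := fun u hu =>
    (hb u).trans (mul_le_mul_of_nonneg_left (Real.exp_le_exp.2 (by linarith)) hK0)
  have hB := hc.pos
  refine ⟨1 + 2 * K', u0, by linarith, by linarith, fun u v hu hv => ?_⟩
  have hu0 : 0 < u := by linarith
  rcases le_or_gt u0 v with hv0 | hv0
  · rcases le_total u v with huv | huv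
    · have h3 := h u v hu huv
      rw [abs_sub_comm]
      have h4 : Real.log (v / u) ≤ |Real.log (v / u)| := le_abs_self _
      have h5 := mul_le_mul_of_nonneg_left h4 hB.le
      linarith
    · have h3 := h v u hv0 huv
      have h4 : Real.log (u / v) ≤ |Real.log (v / u)| := by
        rw [← inv_div, Real.log_inv]
        exact neg_le_abs _
      have h5 := mul_le_mul_of_nonneg_left h4 hB.le
      linarith
  · have h3 := h u0 u le_rfl hu
    have h4 := hb' u0 le_rfl
    have h5 := hb' v hv0.le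
    have h6 : Real.log (u / u0) ≤ |Real.log (v / u)| := by
      have h7 : Real.log (u / u0) ≤ Real.log (u / v) := by
        apply Real.log_le_log (by positivity)
        exact div_le_div_of_nonneg_left hu0.le hv hv0.le
      refine h7.trans ?_
      rw [← inv_div, Real.log_inv]
      exact neg_le_abs _
    have h7 := mul_le_mul_of_nonneg_left h6 hB.le
    have e1 : stp c u - stp c v = (stp c u - stp c u0) + (stp c u0 - stp c v) := by ring
    rw [e1]
    refine (abs_add_le _ _).trans ?_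
    have h8 := abs_sub (stp c u0) (stp c v)
    linarith

/-- the step function is bounded -/
lemma stp_bdd (hc : PS c B) {C0 : ℝ}
    (h : Tendsto (fun w : ℝ => ∑' n : ℕ, c n * (n : ℝ) ^ (-w)) (𝓝[>] 0) (𝓝 C0)) :
    ∃ M : ℝ, ∀ u, 0 < u → |stp c u| ≤ M := by
  obtain ⟨A, u1, hu1, hA, hd⟩ := stp_dist hc
  have hB := hc.pos
  have hw : ∀ᶠ w in 𝓝[>] (0 : ℝ), |w * lap (stp c) w| ≤ |C0| + 1 := by
    have h1 := (Metric.tendsto_nhds.1 h) 1 one_pos
    filter_upwards [h1, self_mem_nhdsWithin] with w h2 hw0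
    have hw0' : (0 : ℝ) < w := hw0
    rw [(stp_hasSum hc.zero (fun _ h => hc.summable h) hw0').tsum_eq, Real.dist_eq] at h2
    have h3 : w * lap (stp c) w = C0 + (w * lap (stp c) w - C0) := by ring
    rw [h3]
    refine (abs_add_le _ _).trans ?_
    linarith
  have h1 : ∀ᶠ u : ℝ in atTop, |u⁻¹ * lap (stp c) u⁻¹| ≤ |C0| + 1 :=
    tendsto_inv_atTop_nhdsGT_zero.eventually hw
  obtain ⟨u2, hu2⟩ := h1.exists_forall_of_atTop
  set G : ℝ := A + B * (2 * Real.Gamma (3 / 2) + 2 * Real.Gamma (1 / 2)) with hG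
  have key : ∀ u : ℝ, u1 ≤ u → |stp c u - u⁻¹ * lap (stp c) u⁻¹| ≤ G := by
    intro u hu
    have hu0 : 0 < u := by linarith
    set w : ℝ := u⁻¹ with hwdef
    have hw0 : 0 < w := inv_pos.2 hu0
    have i1 : IntegrableOn (fun v : ℝ => Real.exp (-(w * v))) (Ioi 0) := by
      have := gam_int (s := 1) one_pos hw0
      simpa using this
    have v1 : w * ∫ v in Ioi (0 : ℝ), Real.exp (-(w * v)) = 1 := by
      have := gam_val (s := 1) one_pos hw0
      simpa [Real.Gamma_one] using this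
    have i2 : IntegrableOn (fun v : ℝ => stp c v * Real.exp (-(w * v))) (Ioi 0) :=
      stp_LInt hc.zero (fun _ h => hc.summable h) hw0
    have e1 : stp c u - w * lap (stp c) w =
        w * ∫ v in Ioi (0 : ℝ), (stp c u - stp c v) * Real.exp (-(w * v)) := by
      have e2 : ∫ v in Ioi (0 : ℝ), (stp c u - stp c v) * Real.exp (-(w * v)) =
          (∫ v in Ioi (0 : ℝ), stp c u * Real.exp (-(w * v))) -
            ∫ v in Ioi (0 : ℝ), stp c v * Real.exp (-(w * v)) := by
        rw [← integral_sub (i1.const_mul _) i2]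
        refine integral_congr_ae (Eventually.of_forall fun v => ?_)
        show (stp c u - stp c v) * _ = _
        ring
      rw [e2, integral_const_mul, mul_sub]
      unfold lap
      have : w * (stp c u * ∫ v in Ioi (0 : ℝ), Real.exp (-(w * v))) = stp c u := by
        calc _ = stp c u * (w * ∫ v in Ioi (0 : ℝ), Real.exp (-(w * v))) := by ring
          _ = _ := by rw [v1, mul_one]
      rw [this]
    set φ : ℝ → ℝ := fun v => A * Real.exp (-(w * v)) +
      (2 * B * ((w * v) ^ ((3 / 2 : ℝ) - 1) * Real.exp (-(w * v))) +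
        2 * B * ((w * v) ^ ((1 / 2 : ℝ) - 1) * Real.exp (-(w * v)))) with hφ
    have i3 : IntegrableOn φ (Ioi 0) :=
      (i1.const_mul A).add (((gam_int' (by norm_num) hw0).const_mul (2 * B)).add
        ((gam_int' (by norm_num) hw0).const_mul (2 * B)))
    have v3 : w * ∫ v in Ioi (0 : ℝ), φ v = G := by
      have j1 : IntegrableOn (fun v : ℝ => A * Real.exp (-(w * v))) (Ioi 0) := i1.const_mul A
      have j2 : IntegrableOn (fun v : ℝ => 2 * B * ((w * v) ^ ((3 / 2 : ℝ) - 1) * Real.exp (-(w * v)))) (Ioi 0) :=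
        (gam_int' (by norm_num) hw0).const_mul (2 * B)
      have j3 : IntegrableOn (fun v : ℝ => 2 * B * ((w * v) ^ ((1 / 2 : ℝ) - 1) * Real.exp (-(w * v)))) (Ioi 0) :=
        (gam_int' (by norm_num) hw0).const_mul (2 * B)
      have g1 := gam_val (s := 3 / 2) (by norm_num) hw0
      have g2 := gam_val (s := 1 / 2) (by norm_num) hw0
      have j23 : IntegrableOn (fun v : ℝ => 2 * B * ((w * v) ^ ((3 / 2 : ℝ) - 1) * Real.exp (-(w * v))) +
          2 * B * ((w * v) ^ ((1 / 2 : ℝ) - 1) * Real.exp (-(w * v)))) (Ioi 0) := j2.add j3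
      have e5 : ∫ v in Ioi (0 : ℝ), φ v = (∫ v in Ioi (0 : ℝ), A * Real.exp (-(w * v))) +
          ((∫ v in Ioi (0 : ℝ), 2 * B * ((w * v) ^ ((3 / 2 : ℝ) - 1) * Real.exp (-(w * v)))) +
            ∫ v in Ioi (0 : ℝ), 2 * B * ((w * v) ^ ((1 / 2 : ℝ) - 1) * Real.exp (-(w * v)))) := by
        rw [← integral_add j2 j3, ← integral_add j1 j23]
      rw [e5, integral_const_mul, integral_const_mul, integral_const_mul]
      have : w * (A * (∫ v in Ioi (0 : ℝ), Real.exp (-(w * v))) +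
          (2 * B * (∫ v in Ioi (0 : ℝ), (w * v) ^ ((3 / 2 : ℝ) - 1) * Real.exp (-(w * v))) +
            2 * B * ∫ v in Ioi (0 : ℝ), (w * v) ^ ((1 / 2 : ℝ) - 1) * Real.exp (-(w * v)))) =
          A * (w * ∫ v in Ioi (0 : ℝ), Real.exp (-(w * v))) +
          (2 * B * (w * ∫ v in Ioi (0 : ℝ), (w * v) ^ ((3 / 2 : ℝ) - 1) * Real.exp (-(w * v))) +
            2 * B * (w * ∫ v in Ioi (0 : ℝ), (w * v) ^ ((1 / 2 : ℝ) - 1) * Real.exp (-(w * v)))) := by ring
      rw [this, v1, g1, g2, hG]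
      ring
    rw [e1, abs_mul, abs_of_pos hw0, ← v3]
    apply mul_le_mul_of_nonneg_left _ hw0.le
    rw [← Real.norm_eq_abs]
    refine norm_integral_le_of_norm_le i3 ?_
    filter_upwards [ae_restrict_mem measurableSet_Ioi] with v hv
    have hv0 : (0 : ℝ) < v := hv
    have h3 := hd u v hu hv0
    have h4 : v / u = w * v := by
      rw [hwdef]
      field_simp
    rw [h4] at h3
    have h5 := abs_log_le (mul_pos hw0 hv0)
    have h6 := mul_le_mul_of_nonneg_left h5 hB.le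
    have h7 : 0 < Real.exp (-(w * v)) := Real.exp_pos _
    rw [norm_mul, Real.norm_eq_abs, Real.norm_of_nonneg h7.le]
    have h8 : |stp c u - stp c v| ≤ A + (2 * B * (w * v) ^ ((3 / 2 : ℝ) - 1) + 2 * B * (w * v) ^ ((1 / 2 : ℝ) - 1)) := by
      linarith
    calc |stp c u - stp c v| * Real.exp (-(w * v)) ≤
        (A + (2 * B * (w * v) ^ ((3 / 2 : ℝ) - 1) + 2 * B * (w * v) ^ ((1 / 2 : ℝ) - 1))) * Real.exp (-(w * v)) :=
          mul_le_mul_of_nonneg_right h8 h7.le
      _ = φ v := by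
        rw [hφ]
        ring
  -- small arguments
  set K : ℝ := ∑' n : ℕ, |c n| * (n : ℝ) ^ (-(1 : ℝ)) with hK
  have hK0 : 0 ≤ K := tsum_nonneg fun n => by positivity
  have hb : ∀ u : ℝ, |stp c u| ≤ K * Real.exp (1 * u) := fun u =>
    stp_abs hc.zero (hc.summable one_pos) zero_le_one u
  set U : ℝ := max u1 u2 with hU
  refine ⟨K * Real.exp U + (|C0| + 1 + |G|), fun u _ => ?_⟩
  have hE := Real.exp_pos U
  have hKE : 0 ≤ K * Real.exp U := by positivity
  rcases le_total U u with h2 | h2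
  · have h3 := key u ((le_max_left _ _).trans h2)
    have h4 := hu2 u ((le_max_right _ _).trans h2)
    have e1 : stp c u = (stp c u - u⁻¹ * lap (stp c) u⁻¹) + u⁻¹ * lap (stp c) u⁻¹ := by ring
    rw [e1]
    refine (abs_add_le _ _).trans ?_
    have := le_abs_self G
    linarith
  · have h4 := hb u
    have h6 : Real.exp (1 * u) ≤ Real.exp U := Real.exp_le_exp.mpr (by linarith)
    have h8 := mul_le_mul_of_nonneg_left h6 hK0
    have h9 := abs_nonneg C0
    have h10 := abs_nonneg G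
    linarith

/-- **The Tauberian theorem.** -/
theorem stp_tendsto (hc : PS c B) {C0 : ℝ}
    (h : Tendsto (fun w : ℝ => ∑' n : ℕ, c n * (n : ℝ) ^ (-w)) (𝓝[>] 0) (𝓝 C0)) :
    Tendsto (stp c) atTop (𝓝 C0) := by
  obtain ⟨M, hM⟩ := stp_bdd hc h
  have hB := hc.pos
  refine tauber_limit (stp_meas c) (fun w hw => stp_LInt hc.zero (fun _ h => hc.summable h) hw) hM ?_ ?_
  · refine h.congr' ?_
    filter_upwards [self_mem_nhdsWithin] with w hw
    exact (stp_hasSum hc.zero (fun _ h => hc.summable h) hw).tsum_eq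
  · intro ε hε
    obtain ⟨u0, h2, h⟩ := hc.slow1 (show 0 < ε / 2 by positivity)
    refine ⟨ε / (2 * B), by positivity, u0, fun u v h3 h4 h5 => ?_⟩
    have hu : 0 < u := by linarith
    have h6 := h u v h3 h4
    have h9 : B * Real.log (v / u) ≤ ε / 2 := by
      have e1 : v / u ≤ 1 + ε / (2 * B) := by rw [div_le_iff₀ hu]; exact h5
      have e2 : 0 < v / u := div_pos (by linarith) hu
      have e3 := Real.log_le_sub_one_of_pos e2
      have e4 : Real.log (v / u) ≤ ε / (2 * B) := by linarith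
      refine (mul_le_mul_of_nonneg_left e4 hB.le).trans (le_of_eq ?_)
      field_simp
    have h11 := abs_le.mp h6
    linarith

end Pool.Agent.V11210.NG
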