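import Pool.Agent.V11210.NG.Abel
import Pool.Agent.V11210.NG.Tau
import Pool.Agent.TH270.MS.EQ3

/-!
# The logarithm of the product of Birch and Swinnerton-Dyer and the sums of Nagao
-/

set_option autoImplicit false

open MeasureTheory Filter Topology Set Classical
open Pool.Agent.W263.BSD (GoodPrime pointCount bsdProduct stp good_of_large)
open Pool.Agent.TH270.MS (one_le_log)

namespace Pool.Agent.V11210.NG

/-- the terms of the logarithm of the product -/
noncomputable def bet (a b : ℤ) (n : ℕ) : ℝ :=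
  if GoodPrime a b n then Real.log (((pointCount a b n : ℝ) + 1) / n) else 0

/-- `a_p / p` -/
noncomputable def nag (a b : ℤ) (n : ℕ) : ℝ :=
  if GoodPrime a b n then ((n : ℝ) - pointCount a b n) / n else 0

/-- `(a_p² - p) / p²` -/
noncomputable def crr (a b : ℤ) (n : ℕ) : ℝ :=
  if GoodPrime a b n then (((n : ℝ) - pointCount a b n) ^ 2 - n) / (n : ℝ) ^ 2 else 0

/-- `1 / p` -/
noncomputable def ivp (a b : ℤ) (n : ℕ) : ℝ := if GoodPrime a b n then 1 / (n : ℝ) else 0

/-- the error -/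
noncomputable def er (a b : ℤ) (n : ℕ) : ℝ := bet a b n + nag a b n - ivp a b n / 2 + crr a b n / 2

variable {a b : ℤ}

lemma not_good_zero : ¬ GoodPrime a b 0 := fun h => Nat.not_prime_zero h.1
lemma not_good_one : ¬ GoodPrime a b 1 := fun h => Nat.not_prime_one h.1

lemma er_le {n : ℕ} (h : GoodPrime a b n) (hn : 36 ≤ n) : |er a b n| ≤ 57 * (n : ℝ) ^ (-(3 / 2) : ℝ) := by
  have hn0 : (0 : ℝ) < n := by exact_mod_cast (by omega : 0 < n)
  have hn36 : (36 : ℝ) ≤ n := by exact_mod_cast hn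
  set A : ℝ := (n : ℝ) - pointCount a b n with hA
  have hH : |A| ≤ 2 * √(n : ℝ) := Pool.Agent.TH270.MS.EQ.hasse' h
  set s : ℝ := √(n : ℝ) with hs
  have hs2 : s ^ 2 = n := Real.sq_sqrt hn0.le
  have hs6 : 6 ≤ s := by
    rw [hs]
    exact Real.le_sqrt_of_sq_le (by linarith)
  have hs0 : 0 < s := by linarith
  set y : ℝ := (1 - A) / n with hy
  have hyb : |y| ≤ 3 / s := by
    rw [hy, abs_div, abs_of_pos hn0, ← hs2, div_le_div_iff₀ (by positivity) hs0]
    have h1 : |1 - A| ≤ 1 + 2 * s := (abs_sub _ _).trans (by rw [abs_one]; linarith)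
    nlinarith
  have hy1 : |y| ≤ 1 / 2 := hyb.trans (by rw [div_le_div_iff₀ hs0 (by norm_num)]; linarith)
  have h1 := Real.abs_log_sub_add_sum_range_le (x := -y) (by rw [abs_neg]; linarith) 2
  rw [Finset.sum_range_succ, Finset.sum_range_one, abs_neg] at h1
  have h2 : |y| ^ (2 + 1) / (1 - |y|) ≤ 54 / s ^ 3 := by
    have h3 : |y| ^ 3 ≤ (3 / s) ^ 3 := pow_le_pow_left₀ (abs_nonneg _) hyb 3
    have h4 : (1 : ℝ) / 2 ≤ 1 - |y| := by linarith
    calc |y| ^ (2 + 1) / (1 - |y|) ≤ (3 / s) ^ 3 / (1 / 2) :=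
          div_le_div₀ (by positivity) h3 (by norm_num) h4
      _ = 54 / s ^ 3 := by
        field_simp
        norm_num
  have hlog : Real.log (((pointCount a b n : ℝ) + 1) / n) = Real.log (1 - -y) := by
    congr 1
    rw [hy, hA]
    field_simp
    ring
  have he : er a b n = (((-y) ^ (0 + 1) / ((0 : ℕ) + 1 : ℝ) + (-y) ^ (1 + 1) / ((1 : ℕ) + 1 : ℝ)) + Real.log (1 - -y)) +
      (A / (n : ℝ) ^ 2 - 1 / (2 * (n : ℝ) ^ 2)) := by
    unfold er bet nag crr ivp
    rw [if_pos h, if_pos h, if_pos h, if_pos h, hlog, ← hA, hy]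
    push_cast
    field_simp
    ring
  have h5 : |A / (n : ℝ) ^ 2 - 1 / (2 * (n : ℝ) ^ 2)| ≤ 3 / s ^ 3 := by
    refine (abs_sub _ _).trans ?_
    rw [abs_div, abs_of_pos (by positivity : (0 : ℝ) < (n : ℝ) ^ 2), abs_of_pos (by positivity : (0 : ℝ) < 1 / (2 * (n : ℝ) ^ 2)),
      ← hs2]
    have e1 : |A| / (s ^ 2) ^ 2 ≤ 2 / s ^ 3 := by
      rw [div_le_div_iff₀ (by positivity) (by positivity)]
      calc |A| * s ^ 3 ≤ (2 * s) * s ^ 3 := mul_le_mul_of_nonneg_right hH (by positivity)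
        _ = 2 * (s ^ 2) ^ 2 := by ring
    have e2 : 1 / (2 * (s ^ 2) ^ 2) ≤ 1 / s ^ 3 := by
      apply one_div_le_one_div_of_le (by positivity)
      have : 0 < s ^ 3 := by positivity
      nlinarith
    have e3 : 3 / s ^ 3 = 2 / s ^ 3 + 1 / s ^ 3 := by ring
    rw [e3]
    exact add_le_add e1 e2
  have h6 : (n : ℝ) ^ (-(3 / 2) : ℝ) = 1 / s ^ 3 := by
    rw [Real.rpow_neg hn0.le, hs, Real.sqrt_eq_rpow, ← Real.rpow_natCast, ← Real.rpow_mul hn0.le, one_div]
    norm_num
  rw [he, h6]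
  refine (abs_add_le _ _).trans ?_
  have h7 := add_le_add (h1.trans h2) h5
  refine le_trans ?_ (h7.trans (le_of_eq (by ring)))
  exact le_rfl

lemma er_sum : Summable fun n : ℕ => Real.log n * er a b n := by
  have h1 : Summable fun n : ℕ => 228 * (n : ℝ) ^ (-(5 / 4) : ℝ) :=
    (Real.summable_nat_rpow.2 (by norm_num)).mul_left _
  refine Summable.of_norm_bounded_eventually_nat h1 ?_
  filter_upwards [eventually_ge_atTop 36] with n hn
  have hn0 : (0 : ℝ) < n := by exact_mod_cast (by omega : 0 < n)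
  have hn1 : (1 : ℝ) ≤ n := by exact_mod_cast (by omega : 1 ≤ n)
  have hl0 : 0 ≤ Real.log n := Real.log_nonneg hn1
  rw [norm_mul, Real.norm_of_nonneg hl0, Real.norm_eq_abs]
  have h2 : Real.log n ≤ 4 * (n : ℝ) ^ (1 / 4 : ℝ) := by
    have h3 := Real.log_le_sub_one_of_pos (Real.rpow_pos_of_pos hn0 (1 / 4 : ℝ))
    rw [Real.log_rpow hn0] at h3
    linarith
  by_cases hg : GoodPrime a b n
  · calc Real.log n * |er a b n| ≤ (4 * (n : ℝ) ^ (1 / 4 : ℝ)) * (57 * (n : ℝ) ^ (-(3 / 2) : ℝ)) :=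
          mul_le_mul h2 (er_le hg hn) (abs_nonneg _) (by positivity)
      _ = 228 * ((n : ℝ) ^ (1 / 4 : ℝ) * (n : ℝ) ^ (-(3 / 2) : ℝ)) := by ring
      _ = _ := by
        rw [← Real.rpow_add hn0]
        norm_num
  · have : er a b n = 0 := by
      unfold er bet nag crr ivp
      rw [if_neg hg, if_neg hg, if_neg hg, if_neg hg]
      ring
    rw [this, abs_zero, mul_zero]
    positivity

lemma ps_bdd_of_summable {c : ℕ → ℝ} (h : Summable c) : ∃ M : ℝ, ∀ x : ℝ, |ps c x| ≤ M := by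
  refine ⟨∑' n, ‖c n‖, fun x => ?_⟩
  unfold ps
  rw [← Real.norm_eq_abs]
  exact (norm_sum_le _ _).trans (h.norm.sum_le_tsum _ fun _ _ => norm_nonneg _)

/-- Mertens' theorem for the good primes -/
lemma ivp_log (hΔ : 4 * a ^ 3 + 27 * b ^ 2 ≠ 0) : ∃ M : ℝ, ∀ x : ℝ, Real.exp 1 ≤ x →
    |pw (ivp a b) x - Real.log x| ≤ M := by
  obtain ⟨D, hD⟩ := good_of_large hΔ
  obtain ⟨C, hC⟩ := Pool.Agent.Helper923.HMertens.mertens_log
  have hfin : Summable fun n : ℕ => (if n.Prime then Real.log n / n else 0) - Real.log n * ivp a b n := by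
    refine summable_of_ne_finset_zero (s := Finset.range (D + 1)) fun n hn => ?_
    rw [Finset.mem_range, not_lt] at hn
    unfold ivp
    by_cases hp : n.Prime
    · rw [if_pos hp, if_pos (hD n hp (by omega))]
      ring
    · rw [if_neg hp, if_neg fun h => hp h.1]
      ring
  obtain ⟨M, hM⟩ := ps_bdd_of_summable hfin
  refine ⟨M + (C + Real.log 2), fun x hx => ?_⟩
  have hx1 : 2 ≤ x := e_two.trans hx
  have hfl : 1 ≤ ⌊x⌋₊ := Nat.one_le_floor_iff x |>.2 (by linarith)
  have h1 := hC ⌊x⌋₊ hfl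
  have h2 := hM x
  have e1 : ps (fun n : ℕ => (if n.Prime then Real.log n / n else 0) - Real.log n * ivp a b n) x =
      ∑ p ∈ (Finset.Icc 1 ⌊x⌋₊).filter Nat.Prime, Real.log p / p - pw (ivp a b) x := by
    unfold pw ps
    rw [Finset.sum_sub_distrib]
    congr 1
    rw [Finset.sum_filter]
    refine (Finset.sum_subset ?_ fun n hn hn' => ?_).symm
    · intro n hn
      rw [Finset.mem_Icc] at hn ⊢
      omega
    · rw [Finset.mem_Icc] at hn hn'
      have : n = 0 := by omega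
      subst this
      simp
  rw [e1] at h2
  have h3 : |Real.log (⌊x⌋₊ : ℝ) - Real.log x| ≤ Real.log 2 := by
    have hf0 : (0 : ℝ) < (⌊x⌋₊ : ℝ) := by exact_mod_cast hfl
    have hf1 : (1 : ℝ) ≤ (⌊x⌋₊ : ℝ) := by exact_mod_cast hfl
    have h4 : (⌊x⌋₊ : ℝ) ≤ x := Nat.floor_le (by linarith)
    have h5 : x ≤ 2 * (⌊x⌋₊ : ℝ) := by
      have := (Nat.lt_floor_add_one x).le
      linarith
    have h6 := Real.log_le_log hf0 h4
    have h7 := Real.log_le_log (by linarith) h5
    rw [Real.log_mul (by norm_num) hf0.ne'] at h7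
    rw [abs_le]
    constructor <;> linarith [Real.log_nonneg (by norm_num : (1 : ℝ) ≤ 2)]
  have e2 : pw (ivp a b) x - Real.log x =
      -(∑ p ∈ (Finset.Icc 1 ⌊x⌋₊).filter Nat.Prime, Real.log p / p - pw (ivp a b) x) +
      ((∑ p ∈ (Finset.Icc 1 ⌊x⌋₊).filter Nat.Prime, Real.log p / p - Real.log (⌊x⌋₊ : ℝ)) +
        (Real.log (⌊x⌋₊ : ℝ) - Real.log x)) := by ring
  rw [e2]
  refine (abs_add_le _ _).trans (add_le_add ?_ ((abs_add_le _ _).trans (add_le_add h1 h3)))
  rw [abs_neg]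
  exact h2

open CongruenceSubgroup in
open scoped MatrixGroups in
/-- Rankin-Selberg -/
lemma crr_tendsto {N : ℕ} [NeZero N] {f : CuspForm (Gamma0 N : Subgroup (GL (Fin 2) ℝ)) 2}
    (hΔ : 4 * a ^ 3 + 27 * b ^ 2 ≠ 0) (hf : Pool.Agent.TH941.Hecke f) (hb : Pool.Agent.TH941.Belongs a b f) :
    ∃ C : ℝ, Tendsto (ps (crr a b)) atTop (𝓝 C) := by
  obtain ⟨C, hC⟩ := hf.cr_limit
  have h1 := stp_tendsto hf.ps hC
  obtain ⟨D, hD⟩ := good_of_large hΔ
  have h2 : Tendsto (ps (Pool.Agent.TH941.cr f)) atTop (𝓝 C) := by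
    refine (h1.comp Real.tendsto_log_atTop).congr' ?_
    filter_upwards [eventually_gt_atTop 0] with x hx
    simp only [Function.comp_apply]
    unfold stp ps
    rw [Real.exp_log hx, Finset.range_eq_Ico]
    refine Finset.sum_congr ?_ fun _ _ => rfl
    ext n
    rw [Finset.mem_Ico, Finset.mem_Icc]
    omega
  have h3 : ∀ n : ℕ, n ∉ Finset.range (D + 1) → Pool.Agent.TH941.cr f n - crr a b n = 0 := by
    intro n hn
    rw [Finset.mem_range, not_lt] at hn
    unfold Pool.Agent.TH941.cr crr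
    by_cases hp : n.Prime
    · have hg := hD n hp (by omega)
      have hn0 : (0 : ℝ) < n := by exact_mod_cast hp.pos
      rw [if_pos hp, if_pos hg]
      have h4 := hb n hg
      unfold Pool.Agent.TH941.gg
      rw [h4]
      have h5 : ‖(n : ℂ) - (pointCount a b n : ℂ)‖ ^ 2 = ((n : ℝ) - pointCount a b n) ^ 2 := by
        have : (n : ℂ) - (pointCount a b n : ℂ) = (((n : ℝ) - pointCount a b n : ℝ) : ℂ) := by push_cast; rfl
        rw [this, Complex.norm_real, Real.norm_eq_abs, sq_abs]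
      rw [h5]
      field_simp
      ring
    · rw [if_neg hp, if_neg fun h => hp h.1, sub_zero]
  refine ⟨C - ∑ n ∈ Finset.range (D + 1), (Pool.Agent.TH941.cr f n - crr a b n), ?_⟩
  have h4 := h2.sub_const (∑ n ∈ Finset.range (D + 1), (Pool.Agent.TH941.cr f n - crr a b n))
  refine h4.congr' ?_
  filter_upwards [eventually_ge_atTop (D : ℝ)] with x hx
  have h5 : ∑ n ∈ Finset.range (D + 1), (Pool.Agent.TH941.cr f n - crr a b n) =
      ∑ n ∈ Finset.Icc 0 ⌊x⌋₊, (Pool.Agent.TH941.cr f n - crr a b n) := by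
    refine Finset.sum_subset ?_ fun n _ hn => h3 n hn
    intro n hn
    rw [Finset.mem_range] at hn
    rw [Finset.mem_Icc]
    have := Nat.le_floor hx
    omega
  rw [h5, Finset.sum_sub_distrib]
  unfold ps
  ring

open CongruenceSubgroup in
open scoped MatrixGroups in
/-- **The relation between the two sums.** -/
theorem rel {N : ℕ} [NeZero N] {f : CuspForm (Gamma0 N : Subgroup (GL (Fin 2) ℝ)) 2}
    (hΔ : 4 * a ^ 3 + 27 * b ^ 2 ≠ 0) (hf : Pool.Agent.TH941.Hecke f) (hb : Pool.Agent.TH941.Belongs a b f) :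
    Tendsto (fun x => (pw (bet a b) x + pw (nag a b) x) / Real.log x) atTop (𝓝 (1 / 2)) := by
  obtain ⟨M₁, hM₁⟩ := ps_bdd_of_summable (er_sum (a := a) (b := b))
  obtain ⟨M₂, hM₂⟩ := ivp_log (b := b) hΔ
  obtain ⟨C, hC⟩ := crr_tendsto hΔ hf hb
  have h1 : Tendsto (fun x => pw (crr a b) x / Real.log x) atTop (𝓝 0) :=
    pw_small (by unfold crr; rw [if_neg not_good_zero]) (by unfold crr; rw [if_neg not_good_one]) hC
  have h2 : Tendsto (fun x => pw (er a b) x / Real.log x) atTop (𝓝 0) := by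
    refine squeeze_zero_norm' ?_ (div_log M₁)
    filter_upwards [eventually_ge_atTop (Real.exp 1)] with x hx
    have hl := one_le_log hx
    rw [norm_div, Real.norm_of_nonneg (by linarith : 0 ≤ Real.log x), Real.norm_eq_abs]
    exact div_le_div_of_nonneg_right (hM₁ x) (by linarith)
  have h3 : Tendsto (fun x => (pw (ivp a b) x - Real.log x) / Real.log x) atTop (𝓝 0) := by
    refine squeeze_zero_norm' ?_ (div_log M₂)
    filter_upwards [eventually_ge_atTop (Real.exp 1)] with x hx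
    have hl := one_le_log hx
    rw [norm_div, Real.norm_of_nonneg (by linarith : 0 ≤ Real.log x), Real.norm_eq_abs]
    exact div_le_div_of_nonneg_right (hM₂ x hx) (by linarith)
  have h4 : Tendsto (fun x => pw (er a b) x / Real.log x - (1 / 2) * (pw (crr a b) x / Real.log x) +
      (1 / 2) * ((pw (ivp a b) x - Real.log x) / Real.log x) + 1 / 2) atTop (𝓝 (0 - (1 / 2) * 0 + (1 / 2) * 0 + 1 / 2)) :=
    ((h2.sub (h1.const_mul _)).add (h3.const_mul _)).add_const _
  rw [mul_zero, sub_zero, add_zero, zero_add] at h4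
  refine h4.congr' ?_
  filter_upwards [eventually_ge_atTop (Real.exp 1)] with x hx
  have hl := one_le_log hx
  have hl0 : Real.log x ≠ 0 := by linarith
  have e1 : pw (er a b) x = pw (bet a b) x + pw (nag a b) x - pw (ivp a b) x / 2 + pw (crr a b) x / 2 := by
    unfold pw ps er
    rw [Finset.sum_div, Finset.sum_div, ← Finset.sum_add_distrib, ← Finset.sum_sub_distrib, ← Finset.sum_add_distrib]
    exact Finset.sum_congr rfl fun n _ => by ring
  rw [e1]
  field_simp
  ring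

/-- the logarithm of the product -/
lemma log_prod_eq {x : ℝ} : Real.log (bsdProduct a b x) = ps (bet a b) x := by
  unfold bsdProduct ps
  rw [Real.log_prod]
  · rw [Finset.sum_filter, Finset.range_eq_Ico]
    refine Finset.sum_congr ?_ fun _ _ => rfl
    ext n
    rw [Finset.mem_Ico, Finset.mem_Icc]
    omega
  · intro q hq
    have hq0 : (0 : ℝ) < q := by exact_mod_cast (Finset.mem_filter.1 hq).2.1.pos
    positivity

end Pool.Agent.V11210.NG
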